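import Pool.Agent.RHO.Stmts4

/-!
# MP_ca8ef3_an, stage 3: row KI1, the inverse theorem for the kernel with affine factors
-/

set_option autoImplicit false

namespace Pool.Agent.RHO.H59d

open Finset

theorem van_congr {ι : Type} [Fintype ι] [DecidableEq ι] {τ : Fn ι} {d d' : ℕ} (h : d = d')
    (hv : Van τ d) : Van τ d' := h ▸ hv

theorem ki1 (iv1 : IV1Stmt) (roh : ROHStmt) (pvb : PVBStmt) (qdf : QDFStmt) : KI1Stmt := by
  classical
  intro ι _ _ D m k1 t K T hm hK1 hnum hKt hK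
  have hr0 : (0 : ℝ) < 1 - 1 / 2 ^ m := by
    have h1 : (1 : ℝ) < 2 ^ m := one_lt_pow₀ one_lt_two (by omega)
    have h2 : (1 : ℝ) / 2 ^ m < 1 := by
      rw [div_lt_one (by positivity)]
      exact h1
    linarith
  have hr1 : (1 - 1 / 2 ^ m : ℝ) < 1 := by
    have h2 : (0 : ℝ) < 1 / 2 ^ m := by positivity
    linarith
  obtain ⟨r, hr⟩ : ∃ r : ℝ, r = 1 - 1 / 2 ^ m := ⟨_, rfl⟩
  rw [← hr] at hr0 hr1 hKt hK
  have hpv : ∀ i : Fin D, (1 : ℝ) / K ≤ pv m 1 k1 (rp (T i)) := by
    intro i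
    refine hKt.trans (hK.trans ?_)
    unfold KT
    rw [← Finset.mul_prod_erase Finset.univ _ (Finset.mem_univ i)]
    have h1 : ∏ j ∈ Finset.univ.erase i, pv m 1 k1 (rp (T j)) ≤ 1 :=
      Finset.prod_le_one (fun j _ => (pvb ι m 1 k1 _).1) (fun j _ => (pvb ι m 1 k1 _).2.1)
    have h2 := (pvb ι m 1 k1 (rp (T i))).1
    calc _ ≤ pv m 1 k1 (rp (T i)) * 1 := mul_le_mul_of_nonneg_left h1 h2
      _ = _ := mul_one _
  -- the sets of points
  have hZ : ∀ i : Fin D, ∃ Zi : Finset (Pt ι),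
      Zi.card ≤ (if T i = 0 then 0 else 2 * 8 ^ m * K) ∧
        T i = ∑ p ∈ Zi, ev (k1 + 1 * m) p := by
    intro i
    by_cases h0 : T i = 0
    · refine ⟨∅, by simp, ?_⟩
      rw [h0, Finset.sum_empty]
    · obtain ⟨F, hF, hV⟩ := iv1 ι m k1 K (rp (T i)) hK1 hnum (hpv i)
      refine ⟨F, by rw [if_neg h0]; exact hF, ?_⟩
      have hV' : Van (rp (T i) + ind F) (k1 + 1 * m) := van_congr (by ring) hV
      have h1 := (qdf ι (k1 + 1 * m)).2.2.1 (rp (T i)) F hV'
      have h2 : (Submodule.Quotient.mk (rp (T i)) : Qd ι (k1 + 1 * m)) = T i := Quotient.out_eq _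
      rw [← h2, h1]
  choose Zf hZc hTi using hZ
  -- the number of the nonzero functionals
  have hfac : ∀ i : Fin D, pv m 1 k1 (rp (T i)) ≤ if T i = 0 then 1 else r := by
    intro i
    by_cases h0 : T i = 0
    · rw [if_pos h0]
      exact (pvb ι m 1 k1 _).2.1
    · rw [if_neg h0, hr]
      apply roh
      intro hv
      apply h0
      have hV' : Van (rp (T i) + ind ∅) (k1 + 1 * m) := by
        have e : (ind (∅ : Finset (Pt ι)) : Fn ι) = 0 := by
          funext z
          simp [ind]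
        rw [e, add_zero]
        exact van_congr (by ring) hv
      have h1 := (qdf ι (k1 + 1 * m)).2.2.1 (rp (T i)) ∅ hV'
      have h2 : (Submodule.Quotient.mk (rp (T i)) : Qd ι (k1 + 1 * m)) = T i := Quotient.out_eq _
      rw [← h2, h1, Finset.sum_empty]
  have hs : (Finset.univ.filter fun i : Fin D => ¬ T i = 0).card ≤ t := by
    have h1 : KT m 1 k1 T ≤ r ^ (Finset.univ.filter fun i : Fin D => ¬ T i = 0).card := by
      unfold KT
      refine (Finset.prod_le_prod (fun i _ => (pvb ι m 1 k1 _).1) fun i _ => hfac i).trans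
        (le_of_eq ?_)
      rw [Finset.prod_ite, Finset.prod_const_one, one_mul, Finset.prod_const]
    exact (pow_le_pow_iff_right_of_lt_one₀ hr0 hr1).1 (hK.trans h1)
  let Z : Finset (Pt ι × Fin D) := Finset.univ.filter fun e => e.1 ∈ Zf e.2
  have hinj : ∀ i : Fin D, Set.InjOn (fun p : Pt ι => (p, i)) (Zf i : Set (Pt ι)) := by
    intro i a _ b _ hab
    exact congrArg Prod.fst hab
  have hfib : ∀ i : Fin D, (Z.filter fun e => e.2 = i) = (Zf i).image fun p => (p, i) := by
    intro i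
    ext e
    rw [Finset.mem_filter, Finset.mem_filter, Finset.mem_image]
    constructor
    · rintro ⟨⟨_, h1⟩, h2⟩
      subst h2
      exact ⟨e.1, h1, rfl⟩
    · rintro ⟨p, hp, rfl⟩
      exact ⟨⟨Finset.mem_univ _, hp⟩, rfl⟩
  have hcard : ∀ i : Fin D, (Z.filter fun e => e.2 = i).card = (Zf i).card := by
    intro i
    rw [hfib, Finset.card_image_of_injOn (hinj i)]
  refine ⟨Z, ?_, ?_⟩
  · rw [Finset.card_eq_sum_card_fiberwise (f := Prod.snd) (t := Finset.univ)
      (fun _ _ => Finset.mem_coe.2 (Finset.mem_univ _))]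
    calc ∑ i : Fin D, (Z.filter fun e => e.2 = i).card = ∑ i : Fin D, (Zf i).card :=
          Finset.sum_congr rfl fun i _ => hcard i
      _ ≤ ∑ i : Fin D, (if T i = 0 then 0 else 2 * 8 ^ m * K) :=
          Finset.sum_le_sum fun i _ => hZc i
      _ = (Finset.univ.filter fun i : Fin D => ¬ T i = 0).card * (2 * 8 ^ m * K) := by
          rw [Finset.sum_ite, Finset.sum_const_zero, zero_add, Finset.sum_const, smul_eq_mul]
      _ ≤ t * (2 * 8 ^ m * K) := Nat.mul_le_mul_right _ hs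
  · funext i
    rw [hTi i]
    change _ = ∑ e ∈ Z.filter (fun e => e.2 = i), ev (k1 + 1 * m) e.1
    rw [hfib, Finset.sum_image (hinj i)]

end Pool.Agent.RHO.H59d
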