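import Pool.Agent.RHO.Stmts4
import Pool.Agent.Helper25_RHO3.ORD

/-!
# MP_ca8ef3_an, stage 3: row ROH, a nonzero functional has `pv ≤ 1 - 1 / 2 ^ m`
-/

set_option autoImplicit false

namespace Pool.Agent.RHO.H59d

open Finset

theorem pr_mul {ι : Type} [Fintype ι] [DecidableEq ι] (τ a f : Fn ι) :
    pr (τ * a) f = pr τ (a * f) := by
  unfold pr
  exact Finset.sum_congr rfl fun z _ => by
    simp only [Pi.mul_apply]
    ring

theorem pr_addl {ι : Type} [Fintype ι] [DecidableEq ι] (a b f : Fn ι) :
    pr (a + b) f = pr a f + pr b f := by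
  simp only [pr, Pi.add_apply, add_mul, Finset.sum_add_distrib]

/-- a functional which vanishes on all products with affine functions vanishes -/
theorem van_of_aff (rmb : RMBStmt) {ι : Type} [Fintype ι] [DecidableEq ι] {τ : Fn ι} {d : ℕ}
    (h : ∀ p ∈ RM ι 1, Van (τ * p) d) : Van τ (d + 1) := by
  classical
  apply H25c.van_of_mon
  intro A hA
  rcases Finset.eq_empty_or_nonempty A with rfl | ⟨i, hi⟩
  · have h1 : (1 : Fn ι) ∈ RM ι 1 := (rmb ι).1 0 1 (by omega) (rmb ι).2.2.2.1
    have h2 : mon (∅ : Finset ι) ∈ RM ι d :=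
      (rmb ι).1 0 d (by omega) ((rmb ι).2.2.1 ∅)
    have h3 := h 1 h1 _ h2
    rwa [mul_one] at h3
  · have h1 : (fun z : Pt ι => z i) ∈ RM ι 1 := (rmb ι).2.2.2.2.1 i
    have h2 : mon (A.erase i) ∈ RM ι d := by
      refine (rmb ι).1 (A.erase i).card d ?_ ((rmb ι).2.2.1 _)
      rw [Finset.card_erase_of_mem hi]
      omega
    have h3 := h _ h1 _ h2
    rw [pr_mul] at h3
    have h4 : (fun z : Pt ι => z i) * mon (A.erase i) = mon A := by
      funext z
      simp only [Pi.mul_apply, mon]
      exact Finset.mul_prod_erase A (fun i => z i) hi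
    rwa [h4] at h3

theorem roh (pvb : PVBStmt) (rmb : RMBStmt) : ROHStmt := by
  classical
  intro ι _ _ m k1
  induction m with
  | zero =>
    intro τ hτ
    have h1 : pv 0 1 k1 τ = 0 := by
      unfold pv
      rw [Finset.filter_eq_empty_iff.2, Finset.card_empty, Nat.cast_zero, zero_div]
      intro q _ hq
      apply hτ
      have h2 : wp q = (1 : Fn ι) := by
        funext z
        simp [wp]
      rw [h2, mul_one] at hq
      exact hq
    rw [h1]
    norm_num
  | succ m ih =>
    intro τ hτ
    have hex : ∃ p₀ : RM ι 1, ¬ Van (τ * (p₀ : Fn ι)) (k1 + m) := by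
      by_contra hcon
      push Not at hcon
      exact hτ (van_of_aff rmb fun p hp => hcon ⟨p, hp⟩)
    obtain ⟨p₀, hp₀⟩ := hex
    set H : Finset (RM ι 1) := Finset.univ.filter fun p => Van (τ * (p : Fn ι)) (k1 + m) with hH
    have hcard : 2 * H.card ≤ Fintype.card (RM ι 1) := by
      have h1 : (H.image fun p => p + p₀).card = H.card :=
        Finset.card_image_of_injective _ (add_left_injective p₀)
      have h2 : Disjoint H (H.image fun p => p + p₀) := by
        rw [Finset.disjoint_left]
        intro p hp hp'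
        rw [Finset.mem_image] at hp'
        obtain ⟨p', hp', rfl⟩ := hp'
        rw [hH, Finset.mem_filter] at hp hp'
        apply hp₀
        intro f hf
        have e1 := hp.2 f hf
        have e2 := hp'.2 f hf
        have e3 : τ * ((p' + p₀ : RM ι 1) : Fn ι) = τ * (p' : Fn ι) + τ * (p₀ : Fn ι) := by
          rw [Submodule.coe_add, mul_add]
        rw [e3, pr_addl, e2, zero_add] at e1
        exact e1
      have h3 := Finset.card_le_univ (H ∪ H.image fun p => p + p₀)
      rw [Finset.card_union_of_disjoint h2, h1] at h3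
      omega
    have hN : (0 : ℝ) < Fintype.card (RM ι 1) := by exact_mod_cast Fintype.card_pos
    rw [(pvb ι m 1 k1 τ).2.2.2.1, div_le_iff₀ hN]
    have hb : ∀ p : RM ι 1, pv m 1 k1 (τ * (p : Fn ι)) ≤
        (1 - 1 / 2 ^ m) + if p ∈ H then (1 / 2 ^ m : ℝ) else 0 := by
      intro p
      by_cases hp : p ∈ H
      · rw [if_pos hp]
        have := (pvb ι m 1 k1 (τ * (p : Fn ι))).2.1
        linarith
      · rw [if_neg hp, add_zero]
        apply ih
        intro hv
        exact hp (Finset.mem_filter.2 ⟨Finset.mem_univ _, hv⟩)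
    refine (Finset.sum_le_sum fun p _ => hb p).trans ?_
    rw [Finset.sum_add_distrib, Finset.sum_const, Finset.card_univ, nsmul_eq_mul,
      ← Finset.sum_filter, Finset.filter_mem_eq_inter, Finset.univ_inter, Finset.sum_const,
      nsmul_eq_mul]
    have h5 : (2 : ℝ) * H.card ≤ Fintype.card (RM ι 1) := by exact_mod_cast hcard
    have h6 : (0 : ℝ) < 1 / 2 ^ m := by positivity
    have h7 : (1 : ℝ) / 2 ^ (m + 1) = 1 / 2 ^ m / 2 := by
      rw [pow_succ]
      field_simp
    rw [h7]
    nlinarith

end Pool.Agent.RHO.H59d
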